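import Mathlib

/-! # The definitions of the statement about size-Ramsey numbers of trees -/

namespace Pool.Agent.H62.SR

/-- the graph formed by the edges of `G` that have colour `c` in the colouring `χ` -/
def colourClass {W : Type} (G : SimpleGraph W) {r : ℕ} (χ : G.edgeSet → Fin r) (c : Fin r) :
    SimpleGraph W where
  Adj a b := ∃ h : G.Adj a b, χ ⟨s(a, b), h⟩ = c
  symm := ⟨fun a b ⟨h, hc⟩ => ⟨h.symm, by
    rw [← hc]
    congr 2
    exact Sym2.eq_swap⟩⟩
  loopless := ⟨fun a h => G.irrefl h.1⟩

/-- every colouring of the edges of `G` with `r` colours contains a monochromatic copy of `H` -/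
def Arrows {W V : Type} (G : SimpleGraph W) (H : SimpleGraph V) (r : ℕ) : Prop :=
  ∀ χ : G.edgeSet → Fin r, ∃ c : Fin r, H.IsContained (colourClass G χ c)

/-- the `r`-colour size-Ramsey number of `H`: the least number of edges of a finite graph `G` such
that every colouring of the edges of `G` with `r` colours contains a monochromatic copy of `H` -/
noncomputable def sizeRamsey (r : ℕ) {V : Type} (H : SimpleGraph V) : ℕ :=
  sInf {m : ℕ | ∃ (W : Type) (_ : Finite W) (G : SimpleGraph W),
    Arrows G H r ∧ G.edgeSet.ncard = m}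

/-- `V₁` and its complement are the two classes of a bipartition of `T`: each edge of `T` has exactly
one end in `V₁` -/
def IsBip {V : Type} (T : SimpleGraph V) (V₁ : Finset V) : Prop :=
  ∀ u v, T.Adj u v → (u ∈ V₁ ↔ v ∉ V₁)

/-- `β(T) = n₁ Δ₁ + n₂ Δ₂`, where `n₁`, `n₂` are the numbers of vertices of the two classes `V₁` and
`V₁ᶜ` and `Δ₁`, `Δ₂` the largest degrees (in `T`) of vertices of the two classes -/
def beta {V : Type} [Fintype V] [DecidableEq V] (T : SimpleGraph V) [DecidableRel T.Adj]
    (V₁ : Finset V) : ℕ :=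
  V₁.card * V₁.sup (fun v => T.degree v) + V₁ᶜ.card * V₁ᶜ.sup (fun v => T.degree v)

end Pool.Agent.H62.SR
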