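import Pool.Agent.H62.SR.Stubs
import Pool.Agent.H62.SR.Defs

/-! # Assembly of the project SR: from hosts to the size-Ramsey number -/

namespace Pool.Agent.H62.SR

open Finset

/-- bipartite graph of a relation -/
def bipGraph {A B : Type} (E : A → B → Prop) : SimpleGraph (A ⊕ B) where
  Adj x y := (∃ a b, x = Sum.inl a ∧ y = Sum.inr b ∧ E a b) ∨
    (∃ a b, y = Sum.inl a ∧ x = Sum.inr b ∧ E a b)
  symm := ⟨fun _ _ h => h.symm⟩
  loopless := ⟨by
    rintro x (⟨a, b, h1, h2, _⟩ | ⟨a, b, h1, h2, _⟩) <;> simp_all⟩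

theorem bipGraph_ncard_le {A B : Type} [Finite A] [Finite B] (E : A → B → Prop) :
    (bipGraph E).edgeSet.ncard ≤ {p : A × B | E p.1 p.2}.ncard := by
  have h : (bipGraph E).edgeSet ⊆
      (fun p : A × B => s((Sum.inl p.1 : A ⊕ B), Sum.inr p.2)) '' {p : A × B | E p.1 p.2} := by
    intro e he
    induction e with | _ x y => ?_
    rw [SimpleGraph.mem_edgeSet] at he
    rcases he with ⟨a, b, rfl, rfl, h⟩ | ⟨a, b, rfl, rfl, h⟩
    · exact ⟨(a, b), h, rfl⟩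
    · exact ⟨(a, b), h, Sym2.eq_swap⟩
  exact (Set.ncard_le_ncard h (Set.toFinite _)).trans (Set.ncard_image_le (Set.toFinite _))

theorem arrows_of_embeds {V A B : Type} (T : SimpleGraph V) (side : V → Bool)
    (hbip : ∀ u v, T.Adj u v → side u ≠ side v) (E : A → B → Prop) (r : ℕ) (hr : 1 ≤ r)
    (h : ∀ χ : A → B → Fin r, ∃ c, Embeds T side (fun a b => E a b ∧ χ a b = c)) :
    Arrows (bipGraph E) T r := by
  classical
  intro χ
  obtain ⟨c, f, g, hf, hg, hE⟩ := h (fun a b => if h : E a b then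
    χ ⟨s(Sum.inl a, Sum.inr b), Or.inl ⟨a, b, rfl, rfl, h⟩⟩ else ⟨0, hr⟩)
  set F : V → A ⊕ B := fun v => if side v = true then Sum.inr (g v) else Sum.inl (f v) with hF
  have hFt : ∀ v, side v = true → F v = Sum.inr (g v) := fun v h => by simp [hF, h]
  have hFf : ∀ v, side v = false → F v = Sum.inl (f v) := fun v h => by simp [hF, h]
  have key : ∀ u v, side u = false → side v = true → T.Adj u v →
      (colourClass (bipGraph E) χ c).Adj (F u) (F v) := by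
    intro u v hu hv huv
    obtain ⟨h1, h2⟩ := hE u v hu hv huv
    rw [dif_pos h1] at h2
    rw [hFf u hu, hFt v hv]
    exact ⟨Or.inl ⟨_, _, rfl, rfl, h1⟩, h2⟩
  refine ⟨c, ⟨⟨⟨F, ?_⟩, ?_⟩⟩⟩
  · intro u v huv
    rcases Bool.eq_false_or_eq_true (side u) with hu | hu
    · have hv : side v = false := by
        have := hbip u v huv
        rw [hu] at this
        simpa using this.symm
      exact (key v u hv hu huv.symm).symm
    · have hv : side v = true := by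
        have := hbip u v huv
        rw [hu] at this
        simpa using this.symm
      exact key u v hu hv huv
  · intro u v huv
    change F u = F v at huv
    rcases Bool.eq_false_or_eq_true (side u) with hu | hu <;>
      rcases Bool.eq_false_or_eq_true (side v) with hv | hv
    · rw [hFt u hu, hFt v hv] at huv
      exact hg u v hu hv (Sum.inr_injective huv)
    · rw [hFt u hu, hFf v hv] at huv
      exact absurd huv (by simp)
    · rw [hFf u hu, hFt v hv] at huv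
      exact absurd huv (by simp)
    · rw [hFf u hu, hFf v hv] at huv
      exact hf u v hu hv (Sum.inl_injective huv)

theorem exists_ceil (n W : ℕ) (hn : 1 ≤ n) : ∃ d, W ≤ n * d ∧ n * d < W + n := by
  refine ⟨(W + n - 1) / n, ?_, ?_⟩
  · have h := Nat.div_add_mod (W + n - 1) n
    have h2 := Nat.mod_lt (W + n - 1) hn
    omega
  · have h := Nat.div_mul_le_self (W + n - 1) n
    rw [mul_comm] at h
    omega

theorem clog_le_log (r : ℕ) (hr : 2 ≤ r) : (Nat.clog 2 r : ℝ) ≤ 3 * Real.log r := by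
  have h1 := Nat.pow_pred_clog_lt_self (b := 2) (by norm_num) (x := r) (by omega)
  have h2 : 0 < Nat.clog 2 r := Nat.clog_pos (by norm_num) (by omega)
  obtain ⟨m, hm⟩ : ∃ m, Nat.clog 2 r = m + 1 := ⟨Nat.clog 2 r - 1, by omega⟩
  rw [hm] at h1 ⊢
  rw [Nat.pred_succ] at h1
  have hlog2 : (0.6931471803 : ℝ) < Real.log 2 := Real.log_two_gt_d9
  have h3 : (m : ℝ) * Real.log 2 ≤ Real.log r := by
    rw [← Real.log_pow]
    exact Real.log_le_log (by positivity) (by exact_mod_cast h1.le)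
  have h4 : Real.log 2 ≤ Real.log r := Real.log_le_log (by norm_num) (by exact_mod_cast hr)
  push_cast
  have h5 : (m : ℝ) * 0.6931471803 ≤ m * Real.log 2 :=
    mul_le_mul_of_nonneg_left hlog2.le (Nat.cast_nonneg m)
  have h6 : (0 : ℝ) ≤ m := Nat.cast_nonneg m
  nlinarith

theorem core (hS : S_SPARSE) (hD : S_DENSE) (r : ℕ) (hr : 2 ≤ r) (V : Type) [Fintype V]
    [DecidableEq V] (T : SimpleGraph V) [DecidableRel T.Adj] (side : V → Bool)
    (n₁ n₂ Δ₁ Δ₂ : ℕ) (hT : TreeData V T side n₁ n₂ Δ₁ Δ₂) (hn : n₂ ≤ n₁) (hΔ : 1 ≤ Δ₁) :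
    ∃ (W : Type) (_ : Finite W) (G : SimpleGraph W), Arrows G T r ∧
      (G.edgeSet.ncard : ℝ) ≤ 2 ^ 35 * r ^ 2 * Real.log r * ((n₁ * Δ₁ + n₂ * Δ₂ : ℕ) : ℝ) := by
  classical
  have hn₁ := hT.pos₁
  have hn₂ := hT.pos₂
  set W := max (n₁ * Δ₁) (n₂ * Δ₂) with hW
  have hW1 : n₁ * Δ₁ ≤ W := le_max_left _ _
  have hW2 : n₂ * Δ₂ ≤ W := le_max_right _ _
  have hWβ : W ≤ n₁ * Δ₁ + n₂ * Δ₂ := max_le (Nat.le_add_right _ _) (Nat.le_add_left _ _)
  have hWn : n₁ ≤ W := (Nat.le_mul_of_pos_right _ hΔ).trans hW1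
  obtain ⟨d₁, hd1, hd1'⟩ := exists_ceil n₁ W hn₁
  obtain ⟨d₂, hd2, hd2'⟩ := exists_ceil n₂ W hn₂
  have hΔ1 : Δ₁ ≤ d₁ := Nat.le_of_mul_le_mul_left (hW1.trans hd1) hn₁
  have hΔ2 : Δ₂ ≤ d₂ := Nat.le_of_mul_le_mul_left (hW2.trans hd2) hn₂
  have hdd : d₁ ≤ d₂ := by
    have h1 : n₂ * d₂ ≤ n₁ * d₂ := Nat.mul_le_mul_right _ hn
    have h2 : n₁ * d₁ < n₁ * (d₂ + 1) := by
      rw [mul_add, mul_one]; omega
    exact Nat.lt_succ_iff.1 (Nat.lt_of_mul_lt_mul_left h2)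
  have hT' : TreeData V T side n₁ n₂ d₁ d₂ := ⟨hT.tree, hT.bip, hT.card₁, hT.card₂, hT.pos₁,
    hT.pos₂, fun v hv => (hT.deg₁ v hv).trans hΔ1, fun v hv => (hT.deg₂ v hv).trans hΔ2⟩
  set L := Nat.clog 2 r with hL
  have hL1 : 1 ≤ L := Nat.clog_pos (by norm_num) (by omega)
  have hLlog : (L : ℝ) ≤ 3 * Real.log r := clog_le_log r hr
  suffices h : ∃ (W : Type) (_ : Finite W) (G : SimpleGraph W), Arrows G T r ∧
      G.edgeSet.ncard ≤ 2 ^ 32 * (r ^ 2 * L * (n₁ * d₁)) by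
    obtain ⟨Wt, hWt, G, hG, hGc⟩ := h
    refine ⟨Wt, hWt, G, hG, ?_⟩
    have h1 : G.edgeSet.ncard ≤ 2 ^ 33 * (r ^ 2 * L * (n₁ * Δ₁ + n₂ * Δ₂)) := by
      refine hGc.trans ?_
      have h2 : n₁ * d₁ ≤ 2 * (n₁ * Δ₁ + n₂ * Δ₂) := by omega
      calc 2 ^ 32 * (r ^ 2 * L * (n₁ * d₁)) ≤ 2 ^ 32 * (r ^ 2 * L * (2 * (n₁ * Δ₁ + n₂ * Δ₂))) := by
            gcongr
        _ = _ := by ring
    have h2 : (G.edgeSet.ncard : ℝ) ≤ 2 ^ 33 * (r ^ 2 * L * ((n₁ * Δ₁ + n₂ * Δ₂ : ℕ) : ℝ)) := by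
      exact_mod_cast h1
    refine h2.trans ?_
    have h3 : (0 : ℝ) ≤ Real.log r := Real.log_nonneg (by exact_mod_cast (by omega : 1 ≤ r))
    calc (2 : ℝ) ^ 33 * (r ^ 2 * L * ((n₁ * Δ₁ + n₂ * Δ₂ : ℕ) : ℝ))
        ≤ 2 ^ 33 * (r ^ 2 * (4 * Real.log r) * ((n₁ * Δ₁ + n₂ * Δ₂ : ℕ) : ℝ)) := by
          gcongr
          linarith
      _ = _ := by ring
  by_cases hs : t1 L d₁ ≤ 4 * n₂
  · have hPar : Par r L n₁ n₂ d₁ d₂ := ⟨hr, hL1, Nat.le_pow_clog (by norm_num) r, hn₂, hn,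
      hΔ.trans hΔ1, hdd, by omega, by omega, hs⟩
    obtain ⟨g, hg⟩ := hS V T side r L n₁ n₂ d₁ d₂ hT' hPar
    refine ⟨Fin (NN r n₁) ⊕ Fin (NN r n₂), inferInstance, bipGraph (fun a b => b ∈ nb g a),
      arrows_of_embeds T side hT.bip _ r (by omega) hg, ?_⟩
    refine (bipGraph_ncard_le _).trans ?_
    have h1 : {p : Fin (NN r n₁) × Fin (NN r n₂) | p.2 ∈ nb g p.1} =
        ((univ : Finset (Fin (NN r n₁))).sigma (fun a => nb g a)).image
          (fun x => (x.1, x.2)) := by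
      ext ⟨a, b⟩
      simp
    rw [h1, Set.ncard_coe_finset]
    refine card_image_le.trans ?_
    rw [card_sigma]
    calc ∑ a, (nb g a).card ≤ ∑ _a : Fin (NN r n₁), dd r L d₁ :=
          sum_le_sum fun a _ => card_image_le.trans (by simp)
      _ = NN r n₁ * dd r L d₁ := by simp
      _ = _ := by unfold NN dd t1; ring
  · push Not at hs
    refine ⟨Fin (2 * r * n₁ + 1) ⊕ Fin (2 * r * n₂ + 1), inferInstance,
      bipGraph (fun _ _ => True), arrows_of_embeds T side hT.bip _ r (by omega) (fun χ => ?_), ?_⟩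
    · obtain ⟨c, hc⟩ := hD V T side n₁ n₂ d₁ d₂ r hT' (by omega) χ
      refine ⟨c, ?_⟩
      simpa using hc
    · refine (bipGraph_ncard_le _).trans ?_
      have h1 : {p : Fin (2 * r * n₁ + 1) × Fin (2 * r * n₂ + 1) | True}.ncard =
          (2 * r * n₁ + 1) * (2 * r * n₂ + 1) := by
        rw [Set.ofPred_true, Set.ncard_univ]; simp
      rw [h1]
      unfold t1 at hs
      have hrn1 : 1 ≤ r * n₁ := Nat.mul_pos (by omega) hn₁
      have hrn2 : 1 ≤ r * n₂ := Nat.mul_pos (by omega) hn₂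
      calc (2 * r * n₁ + 1) * (2 * r * n₂ + 1) ≤ (3 * (r * n₁)) * (3 * (r * n₂)) := by
            apply Nat.mul_le_mul
            · rw [mul_assoc]; omega
            · rw [mul_assoc]; omega
        _ ≤ (3 * (r * n₁)) * (3 * (r * (256 * (d₁ * L)))) := by
            gcongr; omega
        _ = 2304 * (r ^ 2 * L * (n₁ * d₁)) := by ring
        _ ≤ _ := Nat.mul_le_mul_right _ (by norm_num)

/-- the statement of the project -/
def S_FINAL : Prop := ∀ (r : ℕ), 2 ≤ r → ∀ (V : Type) [Fintype V] [DecidableEq V]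
    (T : SimpleGraph V) [DecidableRel T.Adj], T.IsTree → 2 ≤ Fintype.card V →
    ∀ V₁ : Finset V, IsBip T V₁ →
      (∃ (W : Type) (_ : Finite W) (G : SimpleGraph W), Arrows G T r ∧
        (G.edgeSet.ncard : ℝ) ≤ 2 ^ 35 * r ^ 2 * Real.log r * (beta T V₁ : ℝ)) ∧
      (sizeRamsey r T : ℝ) ≤ 2 ^ 35 * r ^ 2 * Real.log r * (beta T V₁ : ℝ)

theorem final (hS : S_SPARSE) (hD : S_DENSE) : S_FINAL := by
  intro r hr V _ _ T _ hT hV V₁ hbip
  suffices h : ∃ (W : Type) (_ : Finite W) (G : SimpleGraph W), Arrows G T r ∧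
        (G.edgeSet.ncard : ℝ) ≤ 2 ^ 35 * r ^ 2 * Real.log r * (beta T V₁ : ℝ) by
    refine ⟨h, ?_⟩
    obtain ⟨W, hW, G, hG, hGc⟩ := h
    refine le_trans ?_ hGc
    have h1 : sizeRamsey r T ≤ G.edgeSet.ncard := Nat.sInf_le ⟨W, hW, G, hG, rfl⟩
    exact_mod_cast h1
  -- an edge
  have hdeg : ∀ v, 1 ≤ T.degree v := by
    intro v
    obtain ⟨u, hu⟩ := Fintype.exists_ne_of_one_lt_card (by omega : 1 < Fintype.card V) v
    obtain ⟨w⟩ := hT.1.preconnected v u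
    cases w with
    | nil => exact absurd rfl hu
    | cons h _ => exact (T.degree_pos_iff_exists_adj v).2 ⟨_, h⟩
  have hne : Nonempty V := Fintype.card_pos_iff.1 (by omega)
  obtain ⟨v₀⟩ := hne
  obtain ⟨w₀, hvw⟩ := (T.degree_pos_iff_exists_adj v₀).1 (hdeg v₀)
  have hV₁ : V₁.Nonempty ∧ (V₁ᶜ).Nonempty := by
    by_cases h : v₀ ∈ V₁
    · exact ⟨⟨v₀, h⟩, ⟨w₀, mem_compl.2 ((hbip _ _ hvw).1 h)⟩⟩
    · refine ⟨⟨w₀, ?_⟩, ⟨v₀, mem_compl.2 h⟩⟩
      by_contra h2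
      exact h ((hbip _ _ hvw).2 h2)
  have key : ∀ U : Finset V, IsBip T U → U.Nonempty → (Uᶜ).Nonempty → Uᶜ.card ≤ U.card →
      ∃ (W : Type) (_ : Finite W) (G : SimpleGraph W), Arrows G T r ∧
        (G.edgeSet.ncard : ℝ) ≤ 2 ^ 35 * r ^ 2 * Real.log r * (beta T U : ℝ) := by
    intro U hU hU1 hU2 hUc
    obtain ⟨u, hu⟩ := hU1
    refine core hS hD r hr V T (fun v => decide (v ∉ U)) U.card Uᶜ.card
      (U.sup (fun v => T.degree v)) (Uᶜ.sup (fun v => T.degree v)) ⟨hT, ?_, ?_, ?_, ?_, ?_, ?_, ?_⟩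
      hUc ?_
    · intro a b hab
      have := hU a b hab
      intro h
      have h' : (a ∈ U) ↔ (b ∈ U) := by simpa using h
      tauto
    · congr 1; ext v; simp
    · congr 1; ext v; simp
    · exact card_pos.2 ⟨u, hu⟩
    · exact card_pos.2 hU2
    · intro v hv
      exact le_sup (f := fun v => T.degree v) (by simpa using hv)
    · intro v hv
      exact le_sup (f := fun v => T.degree v) (by simpa using hv)
    · exact (hdeg u).trans (le_sup (f := fun v => T.degree v) hu)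
  rcases le_total V₁ᶜ.card V₁.card with h | h
  · exact key V₁ hbip hV₁.1 hV₁.2 h
  · have hb : beta T V₁ᶜ = beta T V₁ := by
      unfold beta; rw [compl_compl, add_comm]
    rw [← hb]
    refine key V₁ᶜ ?_ hV₁.2 (by rw [compl_compl]; exact hV₁.1) (by rw [compl_compl]; exact h)
    intro u v huv
    have := hbip u v huv
    simp only [mem_compl]
    tauto

end Pool.Agent.H62.SR
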