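import Pool.Agent.H62.SR.Final
import Pool.Agent.H62.SR.T.CNT
import Pool.Agent.H62.SR.T.CH
import Pool.Agent.H62.SR.T.CLEAN
import Pool.Agent.H62.SR.T.TREE
import Pool.Agent.H62.SR.T.H0
import Pool.Agent.H62.SR.T.H1
import Pool.Agent.H62.SR.T.H2A
import Pool.Agent.H62.SR.T.H2B
import Pool.Agent.H62.SR.T.H3
import Pool.Agent.H62.SR.T.EMBA
import Pool.Agent.H62.SR.T.EMBB
import Pool.Agent.H62.SR.T.DENSE
import Pool.Agent.H62.SR.T.SPARSE

/-!
# The multicolour size-Ramsey number of a tree: everything together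
-/

namespace Pool.Agent.H62.SR

theorem main : S_FINAL :=
  final (T.SPARSE.main (T.H0.main T.CNT.main) (T.H1.main T.CNT.main T.CH.main) T.H2A.main
      T.H2B.main (T.H3.main T.CNT.main T.CH.main) T.CLEAN.main
      (T.EMBA.main T.TREE.main) (T.EMBB.main T.TREE.main))
    (T.DENSE.main T.TREE.main T.CLEAN.main)

end Pool.Agent.H62.SR
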