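import Mathlib

/-!
# Project SR (helper62): multicolour size-Ramsey numbers of trees (MP_366c56_co)

Stubs of the project (paper proof: team-store `tree_ramsey_proof.md`).  Every task is
`theorem main : S_XXX` in the file `Pool/Agent/H62/SR/T/<XXX>.lean`, namespace
`Pool.Agent.H62.SR.T.<XXX>`.
-/

namespace Pool.Agent.H62.SR

open Finset

/-! ### Parameters and the host graph -/

/-- degree of cleaned vertices on the side `A` -/
def t1 (L d₁ : ℕ) : ℕ := 1024 * (d₁ * L)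
/-- degree of cleaned vertices on the side `B` -/
def t2 (L d₂ : ℕ) : ℕ := 512 * (d₂ * L)
/-- number of random choices per vertex of the side `A` -/
def dd (r L d₁ : ℕ) : ℕ := 4 * r * t1 L d₁
/-- number of vertices of a side of the host -/
def NN (r n : ℕ) : ℕ := 2 ^ 20 * r * n

/-- the parameters (sparse case) -/
structure Par (r L n₁ n₂ d₁ d₂ : ℕ) : Prop where
  hr : 2 ≤ r
  hL : 1 ≤ L
  hrL : r ≤ 2 ^ L
  hn₂ : 1 ≤ n₂
  hn : n₂ ≤ n₁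
  hd₁ : 1 ≤ d₁
  hd : d₁ ≤ d₂
  h12 : n₁ * d₁ ≤ 2 * (n₂ * d₂)
  h21 : n₂ * d₂ ≤ 2 * (n₁ * d₁)
  hs : t1 L d₁ ≤ 4 * n₂

/-- random host: `g a i` is the `i`-th random neighbour of `a` -/
abbrev Host (r L n₁ n₂ d₁ : ℕ) : Type := Fin (NN r n₁) → Fin (dd r L d₁) → Fin (NN r n₂)

/-- the neighbourhood of `a` -/
def nb {N₁ d N₂ : ℕ} (g : Fin N₁ → Fin d → Fin N₂) (a : Fin N₁) : Finset (Fin N₂) :=
  univ.image (g a)

/-- (G0) few repetitions -/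
def G0 (r L n₁ n₂ d₁ : ℕ) (g : Host r L n₁ n₂ d₁) : Prop :=
  3 * (NN r n₁ * dd r L d₁) ≤ 4 * ∑ a, (nb g a).card

/-- (G1) -/
def G1 (r L n₁ n₂ d₁ d₂ : ℕ) (g : Host r L n₁ n₂ d₁) : Prop :=
  ∀ (X : Finset (Fin (NN r n₂))) (Y : Finset (Fin (NN r n₁))), Y.card ≤ 8 * n₁ →
    (∀ b ∈ X, t2 L d₂ ≤ 2 * (Y.filter (fun a => b ∈ nb g a)).card) →
    8 * d₂ * X.card ≤ Y.card

/-- (G2A) -/
def G2A (r L n₁ n₂ d₁ : ℕ) (g : Host r L n₁ n₂ d₁) : Prop :=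
  ∀ (R : Finset (Fin (NN r n₂))) (S : Finset (Fin (NN r n₁))), R.card ≤ 8 * n₂ →
    (∀ a ∈ S, t1 L d₁ ≤ 2 * (nb g a ∩ R).card) → 2 * d₁ * S.card ≤ R.card

/-- (G2B) -/
def G2B (r L n₁ n₂ d₁ d₂ : ℕ) (g : Host r L n₁ n₂ d₁) : Prop :=
  ∀ (R X : Finset (Fin (NN r n₂))) (S : Finset (Fin (NN r n₁))), R.card ≤ 8 * n₂ → S.Nonempty →
    (∀ a ∈ S, t1 L d₁ ≤ 2 * (nb g a ∩ R).card) → (∀ a ∈ S, (nb g a ∩ X).Nonempty) →
    R.card ≤ 64 * d₁ * S.card → d₂ * X.card ≤ 2 * S.card → False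

/-- (G3) -/
def G3 (r L n₁ n₂ d₁ d₂ : ℕ) (g : Host r L n₁ n₂ d₁) : Prop :=
  ∀ (X : Finset (Fin (NN r n₂))), 2 ≤ X.card → 2 * d₁ * d₂ * X.card ≤ n₂ →
    2 * ∑ a, ((nb g a ∩ X).card - 1) < d₂ * X.card

/-- task H0 -/
def S_H0 : Prop := ∀ r L n₁ n₂ d₁ d₂ : ℕ, Par r L n₁ n₂ d₁ d₂ →
  4 * {g : Host r L n₁ n₂ d₁ | ¬ G0 r L n₁ n₂ d₁ g}.ncard < Fintype.card (Host r L n₁ n₂ d₁)

/-- task H1 -/
def S_H1 : Prop := ∀ r L n₁ n₂ d₁ d₂ : ℕ, Par r L n₁ n₂ d₁ d₂ →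
  4 * {g : Host r L n₁ n₂ d₁ | ¬ G1 r L n₁ n₂ d₁ d₂ g}.ncard < Fintype.card (Host r L n₁ n₂ d₁)

/-- task H2A -/
def S_H2A : Prop := ∀ r L n₁ n₂ d₁ d₂ : ℕ, Par r L n₁ n₂ d₁ d₂ → d₂ ≤ 2 ^ (30 * (d₁ * L)) →
  4 * {g : Host r L n₁ n₂ d₁ | ¬ G2A r L n₁ n₂ d₁ g}.ncard < Fintype.card (Host r L n₁ n₂ d₁)

/-- task H2B -/
def S_H2B : Prop := ∀ r L n₁ n₂ d₁ d₂ : ℕ, Par r L n₁ n₂ d₁ d₂ → 2 ^ (30 * (d₁ * L)) < d₂ →
  4 * {g : Host r L n₁ n₂ d₁ | ¬ G2B r L n₁ n₂ d₁ d₂ g}.ncard < Fintype.card (Host r L n₁ n₂ d₁)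

/-- task H3 -/
def S_H3 : Prop := ∀ r L n₁ n₂ d₁ d₂ : ℕ, Par r L n₁ n₂ d₁ d₂ → 2 ^ (30 * (d₁ * L)) < d₂ →
  4 * {g : Host r L n₁ n₂ d₁ | ¬ G3 r L n₁ n₂ d₁ d₂ g}.ncard < Fintype.card (Host r L n₁ n₂ d₁)

/-- task CNT: counting the functions with prescribed values (used by H0, H1, H2A, H2B, H3) -/
def S_CNT : Prop := ∀ (N₁ d N₂ : ℕ) (F : Finset (Fin N₁ × Fin d))
    (T : Fin N₁ × Fin d → Finset (Fin N₂)),
  {g : Fin N₁ → Fin d → Fin N₂ | ∀ p ∈ F, g p.1 p.2 ∈ T p}.ncard * N₂ ^ F.card =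
    (∏ p ∈ F, (T p).card) * Fintype.card (Fin N₁ → Fin d → Fin N₂)

/-- task CH: binomial coefficients -/
def S_CH : Prop := ∀ n k : ℕ, 1 ≤ k → ((n.choose k : ℕ) : ℝ) ≤ (3 * n / k) ^ k

/-- task CLEAN: cleaning to a subgraph with large minimal degrees -/
def S_CLEAN : Prop := ∀ (A B : Type) [Fintype A] [Fintype B] [DecidableEq A] [DecidableEq B]
    (J : Finset (A × B)) (s t : ℕ), s * Fintype.card A + t * Fintype.card B < J.card →
  ∃ J' : Finset (A × B), J' ⊆ J ∧ J'.Nonempty ∧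
    ∀ p ∈ J', s ≤ (J'.filter (fun x => x.1 = p.1)).card ∧
      t ≤ (J'.filter (fun x => x.2 = p.2)).card

/-- task TREE: embedding a tree star by star.  `side v = false` : class `V₁` (goes to `A`),
`side v = true` : class `V₂` (goes to `B`). -/
def S_TREE : Prop := ∀ (V A B : Type) [Fintype V] [DecidableEq V] [DecidableEq A] [DecidableEq B]
    [Nonempty A] (T : SimpleGraph V) [DecidableRel T.Adj], T.IsTree →
  ∀ side : V → Bool, (∀ u v, T.Adj u v → side u ≠ side v) → (∃ v, side v = true) →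
  ∀ d₁ d₂ : ℕ, (∀ v, side v = false → T.degree v ≤ d₁) →
    (∀ v, side v = true → T.degree v ≤ d₂) →
  ∀ (E : A → B → Prop) (Inv : Finset A → Finset B → (B → ℕ) → Prop),
    (∃ x₀, Inv ∅ {x₀} (fun _ => 0)) →
    (∀ W U used x k, Inv W U used → x ∈ U → used x < d₂ → k < d₁ →
      W.card < (univ.filter (fun v => side v = false)).card →
      U.card + k ≤ (univ.filter (fun v => side v = true)).card →
      ∃ a, a ∉ W ∧ E a x ∧ ∃ K : Finset B, Disjoint K U ∧ K.card = k ∧ (∀ w ∈ K, E a w) ∧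
        Inv (insert a W) (U ∪ K) (Function.update used x (used x + 1))) →
    ∃ (f : V → A) (g : V → B),
      (∀ u v, side u = false → side v = false → f u = f v → u = v) ∧
      (∀ u v, side u = true → side v = true → g u = g v → u = v) ∧
      ∀ u v, side u = false → side v = true → T.Adj u v → E (f u) (g v)

/-! ### The deterministic embedding -/

/-- the capacity of the children of `b` outside `R` -/
def FF {A B : Type} [DecidableEq B] (C : B → Finset A) (L : A → Finset B) (q : ℕ)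
    (b : B) (R : Finset B) : ℕ := ∑ a ∈ C b, min q (L a \ R).card

/-- number of bad children of `b` -/
def bad {A B : Type} [DecidableEq B] (C : B → Finset A) (L : A → Finset B) (q : ℕ)
    (b : B) (R : Finset B) : ℕ := ((C b).filter (fun a => (L a \ R).card < q)).card

/-- task STEPA: the step on the level `A` (section 4.1) -/
def S_STEPA : Prop := ∀ (A B : Type) [DecidableEq A] [DecidableEq B]
    (B' : Finset B) (C : B → Finset A) (n₁ d₂ : ℕ) (D : B → ℕ) (W : Finset A) (x : B),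
  W.card ≤ n₁ → 1 ≤ n₁ → x ∈ B' → 1 ≤ D x → (∀ b, D b ≤ 4 * d₂) →
  (∀ Y : Finset A, Y.card ≤ 8 * n₁ → 2 * ∑ b ∈ B', (4 * d₂ - (C b \ Y).card) ≤ Y.card) →
  (∀ Y : Finset A, W ⊆ Y → Y.card ≤ 8 * n₁ → ∑ b ∈ B', (D b - (C b \ Y).card) + W.card ≤ Y.card) →
  ∃ S : Finset A, D x ≤ (C x \ S).card ∧ W ⊆ S ∧ ∀ a ∈ C x, a ∉ S →
    ∀ Y : Finset A, insert a W ⊆ Y → Y.card ≤ 8 * n₁ →
    ∑ b ∈ B', (Function.update D x (D x - 1) b - (C b \ Y).card) + (insert a W).card ≤ Y.card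

/-- monotone supermodular set function -/
def MonSup {B : Type} [DecidableEq B] (Φ : Finset B → ℕ) : Prop :=
  (∀ R S, R ⊆ S → Φ R ≤ Φ S) ∧ ∀ R S, Φ R + Φ S ≤ Φ (R ∪ S) + Φ (R ∩ S)

/-- task WSTEP: choosing the `k` children of a pending vertex (section 4.2) -/
def S_WSTEP : Prop := ∀ (B : Type) [DecidableEq B] (Φ : Finset B → ℕ), MonSup Φ →
  ∀ (n₂ k : ℕ) (U La : Finset B), U.card + k ≤ n₂ → 1 ≤ n₂ →
  (∀ R : Finset B, R.card ≤ 8 * n₂ → 2 * Φ R ≤ R.card) →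
  (∀ R : Finset B, U ⊆ R → R.card ≤ 8 * n₂ → Φ R + (k - (La \ R).card) + U.card ≤ R.card) →
  ∃ K : Finset B, K ⊆ La ∧ Disjoint K U ∧ K.card = k ∧
    ∀ R : Finset B, U ∪ K ⊆ R → R.card ≤ 8 * n₂ → Φ R + (U ∪ K).card ≤ R.card

/-- task BSTEP: few children are bad (section 4.4) -/
def S_BSTEP : Prop := ∀ (A B : Type) [DecidableEq A] [DecidableEq B]
    (B' : Finset B) (C : B → Finset A) (La : A → Finset B) (n₂ d₁ d₂ T : ℕ) (Λ : B → ℕ)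
    (U : Finset B) (x : B) (k : ℕ),
  1 ≤ d₁ → 1 ≤ d₂ → k < d₁ → U.card ≤ n₂ → x ∈ B' →
  (∀ b ∈ B', (C b).card = T) → 2 * d₂ ≤ T → (∀ a ∈ C x, (La a).card ≤ 4 * n₂) →
  (∀ b, Λ b ≤ 16 * d₁ * (T - d₂)) → 16 * d₁ * (T - d₂) ≤ Λ x + d₁ * d₂ →
  (∀ R : Finset B, R.card ≤ 8 * n₂ →
    ∑ b ∈ B'.filter (fun b => d₂ < bad C La (16 * d₁) b R), 2 * (16 * d₁) * bad C La (16 * d₁) b R
      ≤ R.card) →
  (∀ R : Finset B, U ⊆ R → R.card ≤ 8 * n₂ →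
    ∑ b ∈ B', (Λ b - FF C La (16 * d₁) b R) + U.card ≤ R.card) →
  ∃ S : Finset A, S.card < 2 * d₂ ∧ ∀ a ∈ C x, a ∉ S → ∀ R : Finset B, U ⊆ R → R.card ≤ 8 * n₂ →
    ∑ b ∈ B', (Function.update Λ x (Λ x - d₁) b - FF C La (16 * d₁) b R) + (k - (La a \ R).card)
      + U.card ≤ R.card

/-- a tree with its two classes and bounds for the degrees: `side v = false` is `V₁` -/
structure TreeData (V : Type) [Fintype V] (T : SimpleGraph V) [DecidableRel T.Adj]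
    (side : V → Bool) (n₁ n₂ d₁ d₂ : ℕ) : Prop where
  tree : T.IsTree
  bip : ∀ u v, T.Adj u v → side u ≠ side v
  card₁ : (univ.filter (fun v => side v = false)).card = n₁
  card₂ : (univ.filter (fun v => side v = true)).card = n₂
  pos₁ : 1 ≤ n₁
  pos₂ : 1 ≤ n₂
  deg₁ : ∀ v, side v = false → T.degree v ≤ d₁
  deg₂ : ∀ v, side v = true → T.degree v ≤ d₂

/-- `T` embeds into the relation `E` between `A` and `B` -/
def Embeds {V A B : Type} (T : SimpleGraph V) (side : V → Bool) (E : A → B → Prop) : Prop :=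
  ∃ (f : V → A) (g : V → B),
    (∀ u v, side u = false → side v = false → f u = f v → u = v) ∧
    (∀ u v, side u = true → side v = true → g u = g v → u = v) ∧
    ∀ u v, side u = false → side v = true → T.Adj u v → E (f u) (g v)

/-- condition (HA) -/
def HA {A B : Type} [DecidableEq A] (B' : Finset B) (C : B → Finset A) (n₁ d₂ : ℕ) : Prop :=
  ∀ Y : Finset A, Y.card ≤ 8 * n₁ → 2 * ∑ b ∈ B', (4 * d₂ - (C b \ Y).card) ≤ Y.card

/-- condition (HBA) -/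
def HBA {A B : Type} [DecidableEq B] (A' : Finset A) (La : A → Finset B) (n₂ d₁ : ℕ) : Prop :=
  ∀ R : Finset B, R.card ≤ 8 * n₂ → 2 * ∑ a ∈ A', (d₁ - (La a \ R).card) ≤ R.card

/-- condition (HBB) -/
def HBB {A B : Type} [DecidableEq B] (B' : Finset B) (C : B → Finset A) (La : A → Finset B)
    (n₂ d₁ d₂ : ℕ) : Prop :=
  ∀ R : Finset B, R.card ≤ 8 * n₂ →
    ∑ b ∈ B'.filter (fun b => d₂ < bad C La (16 * d₁) b R), 2 * (16 * d₁) * bad C La (16 * d₁) b R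
      ≤ R.card

/-- task EMBA: embedding in case A -/
def S_EMBA : Prop := ∀ (V A B : Type) [Fintype V] [DecidableEq V] [DecidableEq A] [DecidableEq B]
    (T : SimpleGraph V) [DecidableRel T.Adj] (side : V → Bool) (n₁ n₂ d₁ d₂ : ℕ),
  TreeData V T side n₁ n₂ d₁ d₂ →
  ∀ (A' : Finset A) (B' : Finset B) (C : B → Finset A) (La : A → Finset B), B'.Nonempty →
    (∀ b ∈ B', C b ⊆ A') → (∀ a ∈ A', La a ⊆ B') →
    HA B' C n₁ d₂ → HBA A' La n₂ d₁ →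
    Embeds T side (fun a b => (a ∈ A' ∧ b ∈ B') ∧ (a ∈ C b ∨ b ∈ La a))

/-- task EMBB: embedding in case B -/
def S_EMBB : Prop := ∀ (V A B : Type) [Fintype V] [DecidableEq V] [DecidableEq A] [DecidableEq B]
    (T : SimpleGraph V) [DecidableRel T.Adj] (side : V → Bool) (n₁ n₂ d₁ d₂ t : ℕ),
  TreeData V T side n₁ n₂ d₁ d₂ →
  ∀ (A' : Finset A) (B' : Finset B) (C : B → Finset A) (La : A → Finset B), B'.Nonempty →
    (∀ b ∈ B', C b ⊆ A') → (∀ a ∈ A', La a ⊆ B') →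
    (∀ b ∈ B', (C b).card = t) → 4 * d₂ ≤ t → (∀ a ∈ A', (La a).card ≤ 4 * n₂) →
    HA B' C n₁ d₂ → HBB B' C La n₂ d₁ d₂ →
    Embeds T side (fun a b => (a ∈ A' ∧ b ∈ B') ∧ (a ∈ C b ∨ b ∈ La a))

/-- task DENSE: the complete bipartite host -/
def S_DENSE : Prop := ∀ (V : Type) [Fintype V] [DecidableEq V]
    (T : SimpleGraph V) [DecidableRel T.Adj] (side : V → Bool) (n₁ n₂ d₁ d₂ r : ℕ),
  TreeData V T side n₁ n₂ d₁ d₂ → 1 ≤ r →
  ∀ χ : Fin (2 * r * n₁ + 1) → Fin (2 * r * n₂ + 1) → Fin r,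
    ∃ c : Fin r, Embeds T side (fun a b => χ a b = c)

/-- task SPARSE: the random host -/
def S_SPARSE : Prop := ∀ (V : Type) [Fintype V] [DecidableEq V]
    (T : SimpleGraph V) [DecidableRel T.Adj] (side : V → Bool) (r L n₁ n₂ d₁ d₂ : ℕ),
  TreeData V T side n₁ n₂ d₁ d₂ → Par r L n₁ n₂ d₁ d₂ →
  ∃ g : Host r L n₁ n₂ d₁, ∀ χ : Fin (NN r n₁) → Fin (NN r n₂) → Fin r,
    ∃ c : Fin r, Embeds T side (fun a b => b ∈ nb g a ∧ χ a b = c)

end Pool.Agent.H62.SR
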