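import Pool.Agent.H62.SR.Stubs

/-! # Supermodular functions of the project SR -/

namespace Pool.Agent.H62.SR

open Finset

section
variable {A B : Type} [DecidableEq B]

theorem sdiff_mono (L R S : Finset B) (h : R ⊆ S) : (L \ S).card ≤ (L \ R).card :=
  card_le_card (sdiff_subset_sdiff subset_rfl h)

theorem sdiff_modular (L R S : Finset B) :
    (L \ (R ∪ S)).card + (L \ (R ∩ S)).card = (L \ R).card + (L \ S).card := by
  have h1 : L \ (R ∪ S) = (L \ R) ∩ (L \ S) := by
    ext x; simp only [mem_sdiff, mem_union, mem_inter]; tauto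
  have h2 : L \ (R ∩ S) = (L \ R) ∪ (L \ S) := by
    ext x; simp only [mem_sdiff, mem_union, mem_inter]; tauto
  rw [h1, h2, add_comm, card_union_add_card_inter]

theorem FF_mono (C : B → Finset A) (L : A → Finset B) (q : ℕ) (b : B) {R S : Finset B}
    (h : R ⊆ S) : FF C L q b S ≤ FF C L q b R := by
  unfold FF
  refine sum_le_sum fun a _ => ?_
  have := sdiff_mono (L a) R S h
  omega

theorem FF_sub (C : B → Finset A) (L : A → Finset B) (q : ℕ) (b : B) (R S : Finset B) :
    FF C L q b (R ∪ S) + FF C L q b (R ∩ S) ≤ FF C L q b R + FF C L q b S := by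
  unfold FF
  rw [← sum_add_distrib, ← sum_add_distrib]
  refine sum_le_sum fun a _ => ?_
  have h1 := sdiff_modular (L a) R S
  have h2 := sdiff_mono (L a) R (R ∪ S) subset_union_left
  have h3 := sdiff_mono (L a) S (R ∪ S) subset_union_right
  omega

theorem monSup_term (C : B → Finset A) (L : A → Finset B) (q : ℕ) (b : B) (l : ℕ) :
    MonSup (fun R => l - FF C L q b R) := by
  refine ⟨fun R S h => ?_, fun R S => ?_⟩
  · have := FF_mono C L q b h
    show l - _ ≤ l - _
    omega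
  · have h1 := FF_sub C L q b R S
    have h2 := FF_mono C L q b (subset_union_left : R ⊆ R ∪ S)
    have h3 := FF_mono C L q b (subset_union_right : S ⊆ R ∪ S)
    show l - _ + (l - _) ≤ l - _ + (l - _)
    omega

theorem monSup_sdiff (L : Finset B) (l : ℕ) : MonSup (fun R => l - (L \ R).card) := by
  refine ⟨fun R S h => ?_, fun R S => ?_⟩
  · have := sdiff_mono L R S h
    show l - _ ≤ l - _
    omega
  · have h1 := sdiff_modular L R S
    have h2 := sdiff_mono L R (R ∪ S) subset_union_left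
    have h3 := sdiff_mono L S (R ∪ S) subset_union_right
    show l - _ + (l - _) ≤ l - _ + (l - _)
    omega

theorem monSup_zero : MonSup (fun _ : Finset B => 0) := ⟨fun _ _ _ => le_rfl, fun _ _ => le_rfl⟩

theorem MonSup.add {Φ Ψ : Finset B → ℕ} (h₁ : MonSup Φ) (h₂ : MonSup Ψ) :
    MonSup (fun R => Φ R + Ψ R) := by
  refine ⟨fun R S h => ?_, fun R S => ?_⟩
  · exact add_le_add (h₁.1 R S h) (h₂.1 R S h)
  · have := h₁.2 R S
    have := h₂.2 R S
    show Φ R + Ψ R + (Φ S + Ψ S) ≤ Φ (R ∪ S) + Ψ (R ∪ S) + (Φ (R ∩ S) + Ψ (R ∩ S))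
    omega

theorem MonSup.sum {ι : Type} (s : Finset ι) {Φ : ι → Finset B → ℕ}
    (h : ∀ i ∈ s, MonSup (Φ i)) : MonSup (fun R => ∑ i ∈ s, Φ i R) := by
  refine ⟨fun R S hRS => sum_le_sum fun i hi => (h i hi).1 R S hRS, fun R S => ?_⟩
  show ∑ i ∈ s, Φ i R + ∑ i ∈ s, Φ i S ≤ ∑ i ∈ s, Φ i (R ∪ S) + ∑ i ∈ s, Φ i (R ∩ S)
  rw [← sum_add_distrib, ← sum_add_distrib]
  exact sum_le_sum fun i hi => (h i hi).2 R S

/-- Sets of small slack are closed under unions, the slacks add up. -/
theorem slack_union {Φ : Finset B → ℕ} (hΦ : MonSup Φ) {U : Finset B} {Q : ℕ}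
    (h1 : ∀ R : Finset B, U ⊆ R → R.card ≤ 2 * Q → Φ R + U.card ≤ R.card)
    {R S : Finset B} (hR : U ⊆ R) (hS : U ⊆ S) (hRc : R.card ≤ Q) (hSc : S.card ≤ Q) {i j : ℕ}
    (hRi : R.card ≤ Φ R + U.card + i) (hSj : S.card ≤ Φ S + U.card + j) :
    (R ∪ S).card ≤ 2 * Q ∧ (R ∪ S).card ≤ Φ (R ∪ S) + U.card + (i + j) := by
  have hc := card_union_add_card_inter R S
  have h2 := hΦ.2 R S
  have hin : (R ∩ S).card ≤ Q := (card_le_card inter_subset_left).trans hRc
  have h3 := h1 (R ∩ S) (subset_inter hR hS) (by omega)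
  constructor <;> omega

end

end Pool.Agent.H62.SR
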