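import Pool.Agent.H62.SR.T.CNT
import Pool.Agent.H62.SR.T.CH

/-! # Tools for the union bounds (helper33) -/

namespace Pool.Agent.H62.SR.UB

open Finset Pool.Agent.H62.SR

/-- the sum over all non-empty subsets of `2 ^ (-size) / (number of the subsets of this size)` -/
theorem sum_weight (N : ℕ) :
    ∑ R : Finset (Fin N), (if R.Nonempty then ((1 : ℝ) / 2) ^ R.card / (N.choose R.card : ℕ) else 0) ≤ 1 := by
  have h1 := Finset.sum_powerset_apply_card
    (f := fun m : ℕ => if 1 ≤ m then ((1 : ℝ) / 2) ^ m / (N.choose m : ℕ) else 0) (x := (univ : Finset (Fin N)))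
  rw [powerset_univ, card_univ, Fintype.card_fin] at h1
  have h2 : ∑ R : Finset (Fin N), (if R.Nonempty then ((1 : ℝ) / 2) ^ R.card / (N.choose R.card : ℕ) else 0) =
      ∑ R : Finset (Fin N), (if 1 ≤ R.card then ((1 : ℝ) / 2) ^ R.card / (N.choose R.card : ℕ) else 0) := by
    refine sum_congr rfl fun R _ => ?_
    by_cases hR : R.Nonempty
    · rw [if_pos hR, if_pos (show 1 ≤ R.card from card_pos.2 hR)]
    · rw [if_neg hR, if_neg (show ¬ 1 ≤ R.card from fun h => hR (card_pos.1 h))]
  rw [h2, h1]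
  have h3 : ∀ m ∈ range (N + 1), N.choose m • (if 1 ≤ m then ((1 : ℝ) / 2) ^ m / (N.choose m : ℕ) else 0) =
      if 1 ≤ m then ((1 : ℝ) / 2) ^ m else 0 := by
    intro m hm
    split_ifs with h
    · rw [nsmul_eq_mul, mul_div_cancel₀]
      exact_mod_cast (Nat.choose_pos (Nat.lt_succ_iff.1 (mem_range.1 hm))).ne'
    · simp
  rw [sum_congr rfl h3, sum_range_succ']
  simp only [le_add_iff_nonneg_left, Nat.zero_le, if_true, Nat.not_succ_le_zero, nonpos_iff_eq_zero,
    one_ne_zero, if_false, add_zero]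
  have h4 : ∀ n : ℕ, ∑ m ∈ range n, ((1 : ℝ) / 2) ^ (m + 1) = 1 - (1 / 2) ^ n := by
    intro n
    induction n with
    | zero => simp
    | succ n ih => rw [sum_range_succ, ih]; ring
  rw [h4]
  have : (0 : ℝ) < (1 / 2) ^ N := by positivity
  linarith

/-- **Union bound over pairs of sets.** If every bad `g` has a bad pair `(R, S)` of non-empty sets, and the
number of the `g` which are bad for `(R, S)` is at most `H` times `2 ^ (- |R| - |S|) / 8` divided by the number of the
pairs of sets of these sizes, then there are fewer than `H / 4` bad `g`. -/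
theorem union_pairs {N₁ N₂ : ℕ} {Ω : Type} [Fintype Ω] [Nonempty Ω] (Bad : Set Ω)
    (P : Finset (Fin N₂) → Finset (Fin N₁) → Ω → Prop)
    (h1 : ∀ g ∈ Bad, ∃ R S, R.Nonempty ∧ S.Nonempty ∧ P R S g)
    (h2 : ∀ R S, R.Nonempty → S.Nonempty → ({g | P R S g}.ncard : ℝ) *
      ((N₂.choose R.card : ℕ) * (N₁.choose S.card : ℕ)) * 2 ^ (R.card + S.card + 3) ≤ Fintype.card Ω) :
    4 * Bad.ncard < Fintype.card Ω := by
  classical
  set H : ℝ := (Fintype.card Ω : ℝ) with hH
  have hH0 : 0 < H := by
    rw [hH]; exact_mod_cast Fintype.card_pos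
  have hC2 : ∀ R : Finset (Fin N₂), (0 : ℝ) < (N₂.choose R.card : ℕ) := fun R => by
    have := card_le_univ R
    rw [Fintype.card_fin] at this
    exact_mod_cast Nat.choose_pos this
  have hC1 : ∀ S : Finset (Fin N₁), (0 : ℝ) < (N₁.choose S.card : ℕ) := fun S => by
    have := card_le_univ S
    rw [Fintype.card_fin] at this
    exact_mod_cast Nat.choose_pos this
  have h3 : Bad ⊆ ((univ : Finset (Finset (Fin N₂) × Finset (Fin N₁))).biUnion (fun q =>
      if q.1.Nonempty ∧ q.2.Nonempty then univ.filter (fun g => P q.1 q.2 g) else ∅) : Set Ω) := by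
    intro g hg
    obtain ⟨R, S, hR, hS, hP⟩ := h1 g hg
    rw [mem_coe, mem_biUnion]
    refine ⟨(R, S), mem_univ _, ?_⟩
    rw [if_pos ⟨hR, hS⟩, mem_filter]
    exact ⟨mem_univ _, hP⟩
  have h4 : (Bad.ncard : ℝ) ≤ ∑ q : Finset (Fin N₂) × Finset (Fin N₁),
      (((if q.1.Nonempty ∧ q.2.Nonempty then univ.filter (fun g => P q.1 q.2 g) else ∅ : Finset Ω)).card : ℝ) := by
    have h5 := Set.ncard_le_ncard h3 (Finset.finite_toSet _)
    rw [Set.ncard_coe_finset] at h5
    exact_mod_cast h5.trans card_biUnion_le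
  have h6 : ∀ q : Finset (Fin N₂) × Finset (Fin N₁),
      (((if q.1.Nonempty ∧ q.2.Nonempty then univ.filter (fun g => P q.1 q.2 g) else ∅ : Finset Ω)).card : ℝ) ≤
      (H / 8) * ((if q.1.Nonempty then ((1 : ℝ) / 2) ^ q.1.card / (N₂.choose q.1.card : ℕ) else 0) *
        (if q.2.Nonempty then ((1 : ℝ) / 2) ^ q.2.card / (N₁.choose q.2.card : ℕ) else 0)) := by
    rintro ⟨R, S⟩
    by_cases hR : R.Nonempty
    · by_cases hS : S.Nonempty
      · simp only [hR, hS, and_self, if_true]
        have h7 := h2 R S hR hS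
        have e : {g | P R S g}.ncard = (univ.filter (fun g => P R S g)).card := by
          rw [← Set.ncard_coe_finset]
          congr 1
          ext g
          simp
        rw [e] at h7
        rw [div_mul_div_comm, ← pow_add, ← mul_div_assoc, le_div_iff₀ (mul_pos (hC2 R) (hC1 S)), one_div_pow,
          mul_one_div, le_div_iff₀ (by positivity), le_div_iff₀ (by norm_num : (0 : ℝ) < 8)]
        calc _ = ((univ.filter (fun g => P R S g)).card : ℝ) *
            ((N₂.choose R.card : ℕ) * (N₁.choose S.card : ℕ)) * 2 ^ (R.card + S.card + 3) := by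
              rw [pow_add _ _ 3]; ring
          _ ≤ H := h7
      · simp [hS]
    · simp [hR]
  have h8 := h4.trans (sum_le_sum fun q _ => h6 q)
  rw [← mul_sum, Fintype.sum_prod_type] at h8
  simp only [← mul_sum, ← sum_mul] at h8
  have w1 := sum_weight N₁
  have w2 := sum_weight N₂
  have w0 : ∀ N : ℕ, (0 : ℝ) ≤
      ∑ R : Finset (Fin N), (if R.Nonempty then ((1 : ℝ) / 2) ^ R.card / (N.choose R.card : ℕ) else 0) := by
    intro N
    refine sum_nonneg fun R _ => ?_
    split_ifs <;> positivity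
  have h9 : (Bad.ncard : ℝ) ≤ H / 8 * 1 := by
    refine h8.trans (mul_le_mul_of_nonneg_left ?_ (by positivity))
    exact mul_le_one₀ w2 (w0 _) w1
  have h10 : (4 : ℝ) * Bad.ncard < H := by linarith
  rw [hH] at h10
  exact_mod_cast h10

/-- rows with `h` values in `R` -/
theorem row_count {d N₂ : ℕ} (hN : 0 < N₂) (R : Finset (Fin N₂)) (h : ℕ) :
    (((univ : Finset (Fin d → Fin N₂)).filter (fun f => h ≤ (univ.image f ∩ R).card)).card : ℝ) ≤
      (d.choose h : ℕ) * ((R.card : ℝ) / N₂) ^ h * (N₂ : ℝ) ^ d := by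
  classical
  have h0 : (univ : Finset (Fin d → Fin N₂)).filter (fun f => h ≤ (univ.image f ∩ R).card) ⊆
      (powersetCard h (univ : Finset (Fin d))).biUnion (fun I =>
        Fintype.piFinset (fun i => if i ∈ I then R else univ)) := by
    intro f hf
    rw [mem_filter] at hf
    obtain ⟨V, hV, hVc⟩ := exists_subset_card_eq hf.2
    have hex : ∀ v : V, ∃ i, f i = v := fun v => by
      have := (mem_inter.1 (hV v.2)).1
      obtain ⟨i, _, hi⟩ := mem_image.1 this
      exact ⟨i, hi⟩
    choose ι hι using hex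
    have hinj : Function.Injective ι := by
      intro v w hvw
      apply Subtype.ext
      rw [← hι v, ← hι w, hvw]
    rw [mem_biUnion]
    refine ⟨V.attach.image ι, ?_, ?_⟩
    · rw [mem_powersetCard]
      exact ⟨subset_univ _, by rw [card_image_of_injective _ hinj, card_attach, hVc]⟩
    · rw [Fintype.mem_piFinset]
      intro i
      split_ifs with hi
      · obtain ⟨v, hv, rfl⟩ := mem_image.1 hi
        rw [hι v]
        exact (mem_inter.1 (hV v.2)).2
      · exact mem_univ _
  have h1 : ∀ I ∈ powersetCard h (univ : Finset (Fin d)),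
      ((Fintype.piFinset (fun i => if i ∈ I then R else (univ : Finset (Fin N₂)))).card : ℝ) =
        ((R.card : ℝ) / N₂) ^ h * (N₂ : ℝ) ^ d := by
    intro I hI
    rw [mem_powersetCard] at hI
    rw [Fintype.card_piFinset, Nat.cast_prod]
    have e : ∀ i : Fin d, (((if i ∈ I then R else (univ : Finset (Fin N₂))).card : ℕ) : ℝ) =
        (if i ∈ I then (R.card : ℝ) / N₂ else 1) * (N₂ : ℝ) := by
      intro i
      have hN' : (N₂ : ℝ) ≠ 0 := by exact_mod_cast hN.ne'
      split_ifs
      · field_simp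
      · simp
    rw [prod_congr rfl fun i _ => e i, prod_mul_distrib, prod_ite_mem, univ_inter, prod_const, prod_const, hI.2,
      card_univ, Fintype.card_fin]
  calc (((univ : Finset (Fin d → Fin N₂)).filter (fun f => h ≤ (univ.image f ∩ R).card)).card : ℝ)
      ≤ (((powersetCard h (univ : Finset (Fin d))).biUnion (fun I =>
        Fintype.piFinset (fun i => if i ∈ I then R else univ))).card : ℝ) := by
        exact_mod_cast card_le_card h0
    _ ≤ ∑ I ∈ powersetCard h (univ : Finset (Fin d)),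
        ((Fintype.piFinset (fun i => if i ∈ I then R else (univ : Finset (Fin N₂)))).card : ℝ) := by
        exact_mod_cast card_biUnion_le
    _ = _ := by
        rw [sum_congr rfl h1, sum_const, card_powersetCard, card_univ, Fintype.card_fin, nsmul_eq_mul, mul_assoc]

/-- functions all whose rows in `S` belong to `Q`, where `Q` has at most `β N₂ ^ d` elements -/
theorem rows_count {N₁ d N₂ : ℕ} (S : Finset (Fin N₁)) (Q : Finset (Fin d → Fin N₂)) {β : ℝ}
    (hQ : (Q.card : ℝ) ≤ β * (N₂ : ℝ) ^ d) :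
    ({g : Fin N₁ → Fin d → Fin N₂ | ∀ a ∈ S, g a ∈ Q}.ncard : ℝ) ≤
      β ^ S.card * Fintype.card (Fin N₁ → Fin d → Fin N₂) := by
  classical
  have e1 : {g : Fin N₁ → Fin d → Fin N₂ | ∀ a ∈ S, g a ∈ Q} =
      (Fintype.piFinset (fun a => if a ∈ S then Q else univ) : Finset (Fin N₁ → Fin d → Fin N₂)) := by
    ext g
    rw [mem_coe, Fintype.mem_piFinset]
    constructor
    · intro h a
      split_ifs with ha
      · exact h a ha
      · exact mem_univ _
    · intro h a ha
      have := h a
      rwa [if_pos ha] at this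
  rw [e1, Set.ncard_coe_finset, Fintype.card_piFinset, Nat.cast_prod, Fintype.card_fun, Fintype.card_fun,
    Fintype.card_fin, Fintype.card_fin, Fintype.card_fin, Nat.cast_pow, Nat.cast_pow]
  have e2 : (β ^ S.card * ((N₂ : ℝ) ^ d) ^ N₁ : ℝ) = ∏ a : Fin N₁, (if a ∈ S then β else 1) * (N₂ : ℝ) ^ d := by
    rw [prod_mul_distrib, prod_ite_mem, univ_inter, prod_const, prod_const, card_univ, Fintype.card_fin]
  rw [e2]
  refine prod_le_prod (fun _ _ => Nat.cast_nonneg _) fun a _ => ?_
  split_ifs
  · exact hQ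
  · rw [card_univ, Fintype.card_fun, Fintype.card_fin, Fintype.card_fin, one_mul, Nat.cast_pow]

end Pool.Agent.H62.SR.UB
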